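import Mathlib

namespace Pool.Agent.Results.MP_e70d00_co.StabilityFails

open Finset

/-- The symmetric group on `n` points. -/
abbrev S (n : ℕ) : Type := Equiv.Perm (Fin n)

/-- The `t`-coset `T_{a,b}` of all permutations sending `a i` to `b i` for every `i`. -/
def coset {n t : ℕ} (a b : Fin t ↪ Fin n) : Set (S n) := {σ | ∀ i, σ (a i) = b i}

/-- `C` is a union of `t`-cosets of `S n`. -/
def IsUnionOfCosets (n t : ℕ) (C : Set (S n)) : Prop :=
  ∃ F : Set ((Fin t ↪ Fin n) × (Fin t ↪ Fin n)), C = ⋃ p ∈ F, coset p.1 p.2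

/-- The characteristic function of a set of permutations. -/
noncomputable def charFn {n : ℕ} (A : Set (S n)) : EuclideanSpace ℝ (S n) :=
  WithLp.toLp 2 (A.indicator (fun _ => (1 : ℝ)))

/-- `U_t`, the linear span of the characteristic functions of all `t`-cosets. -/
noncomputable def U (n t : ℕ) : Submodule ℝ (EuclideanSpace ℝ (S n)) :=
  Submodule.span ℝ {f | ∃ a b : Fin t ↪ Fin n, f = charFn (coset a b)}

/-- Expectation with respect to the uniform measure on `S n`. -/
noncomputable def expect {n : ℕ} (h : S n → ℝ) : ℝ := (1 / (n.factorial : ℝ)) * ∑ σ, h σ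

/-! ### Functions of at most `t` coordinates lie in `U_t` -/

lemma mem_U_of_depends {n t : ℕ} (g : EuclideanSpace ℝ (S n)) (a : Fin t ↪ Fin n)
    (hg : ∀ σ τ : S n, (∀ i, σ (a i) = τ (a i)) → g σ = g τ) : g ∈ U n t := by
  classical
  let c : (Fin t ↪ Fin n) → ℝ := fun b =>
    if h : ∃ σ : S n, ∀ i, σ (a i) = b i then g h.choose else 0
  have key : g = ∑ b : Fin t ↪ Fin n, c b • charFn (coset a b) := by
    ext σ
    have hσ : ∃ b : Fin t ↪ Fin n, ∀ i, σ (a i) = b i :=
      ⟨a.trans σ.toEmbedding, fun i => rfl⟩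
    obtain ⟨b₀, hb₀⟩ := hσ
    rw [WithLp.ofLp_sum, Finset.sum_apply]
    rw [Finset.sum_eq_single b₀]
    · have hex : ∃ τ : S n, ∀ i, τ (a i) = b₀ i := ⟨σ, hb₀⟩
      have hc : c b₀ = g hex.choose := by simp only [c]; rw [dif_pos hex]
      have h1 : g hex.choose = g σ :=
        hg _ _ (fun i => (hex.choose_spec i).trans (hb₀ i).symm)
      have h2 : (charFn (coset a b₀)).ofLp σ = 1 := by
        simp only [charFn]
        exact Set.indicator_of_mem (show σ ∈ coset a b₀ from hb₀) _
      simp only [PiLp.smul_apply, smul_eq_mul]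
      rw [h2, hc, h1, mul_one]
    · intro b _ hb
      have h2 : (charFn (coset a b)).ofLp σ = 0 := by
        simp only [charFn]
        apply Set.indicator_of_notMem
        intro h
        apply hb
        ext i
        have := h i
        rw [← this, hb₀ i]
      simp only [PiLp.smul_apply, smul_eq_mul]
      rw [h2, mul_zero]
    · intro h
      exact absurd (Finset.mem_univ _) h
  rw [key]
  exact Submodule.sum_mem _ (fun b _ => Submodule.smul_mem _ _
    (Submodule.subset_span ⟨a, b, rfl⟩))

lemma exists_embedding_of_card_le {n t : ℕ} (htn : t ≤ n) (T : Finset (Fin n)) (hT : T.card ≤ t) :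
    ∃ a : Fin t ↪ Fin n, ∀ i ∈ T, ∃ k, a k = i := by
  classical
  obtain ⟨T', hTT', -, hcard⟩ := Finset.exists_subsuperset_card_eq (Finset.subset_univ T) hT
    (by simpa using htn)
  refine ⟨(T'.equivFinOfCardEq hcard).symm.toEmbedding.trans (Function.Embedding.subtype _), ?_⟩
  intro i hi
  exact ⟨T'.equivFinOfCardEq hcard ⟨i, hTT' hi⟩, by simp⟩

lemma mem_U_of_depends_finset {n t : ℕ} (htn : t ≤ n) (T : Finset (Fin n)) (hT : T.card ≤ t)
    (g : EuclideanSpace ℝ (S n))
    (hg : ∀ σ τ : S n, (∀ i ∈ T, σ i = τ i) → g σ = g τ) : g ∈ U n t := by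
  obtain ⟨a, ha⟩ := exists_embedding_of_card_le htn T hT
  refine mem_U_of_depends g a (fun σ τ h => hg σ τ (fun i hi => ?_))
  obtain ⟨k, rfl⟩ := ha i hi
  exact h k

/-! ### The family -/

/-- `x ∈ [2N]` is low if it belongs to the first half. -/
def low {N : ℕ} (b : Fin (2 * N)) : Prop := b.val < N

instance {N : ℕ} (b : Fin (2 * N)) : Decidable (low b) := inferInstanceAs (Decidable (b.val < N))

/-- the first `t+1` positions -/
def P (N t : ℕ) : Finset (Fin (2 * N)) := Finset.univ.filter (fun i => i.val < t + 1)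

/-- The family: the images of the first `t+1` points all lie in the same half. -/
def fam (N t : ℕ) : Finset (S (2 * N)) :=
  Finset.univ.filter (fun σ => (∀ i ∈ P N t, low (σ i)) ∨ (∀ i ∈ P N t, ¬ low (σ i)))

lemma card_P {N t : ℕ} (h : t + 1 ≤ N) : (P N t).card = t + 1 := by
  unfold P
  rw [Fin.card_filter_val_lt]
  omega

/-- the coordinate function `x_i` -/
noncomputable def x {N : ℕ} (i : Fin (2 * N)) (σ : S (2 * N)) : ℝ := if low (σ i) then 1 else 0

lemma charFn_fam_eq {N t : ℕ} (ht : Even t) (hN : t + 1 ≤ N) (σ : S (2 * N)) :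
    (charFn (fam N t : Set (S (2 * N)))).ofLp σ
      = ∑ T ∈ (P N t).powerset.filter (fun T => T ≠ P N t), (-1 : ℝ) ^ T.card * ∏ i ∈ T, x i σ := by
  classical
  have hcard := card_P (t := t) hN
  have h1 : ∏ i ∈ P N t, (1 - x i σ) = ∑ T ∈ (P N t).powerset, (-1 : ℝ) ^ T.card * ∏ i ∈ T, x i σ := by
    have : ∀ i, (1 - x i σ) = (- x i σ) + 1 := fun i => by ring
    simp only [this]
    rw [Finset.prod_add]
    refine Finset.sum_congr rfl (fun T _ => ?_)
    rw [Finset.prod_const_one, mul_one, Finset.prod_neg]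
  have h2 : ∑ T ∈ (P N t).powerset, (-1 : ℝ) ^ T.card * ∏ i ∈ T, x i σ
      = (∑ T ∈ (P N t).powerset.filter (fun T => T ≠ P N t), (-1 : ℝ) ^ T.card * ∏ i ∈ T, x i σ)
        - ∏ i ∈ P N t, x i σ := by
    rw [← Finset.sum_filter_add_sum_filter_not (P N t).powerset (fun T => T ≠ P N t)]
    have : (P N t).powerset.filter (fun T => ¬ (T ≠ P N t)) = {P N t} := by
      ext T
      simp only [Finset.mem_filter, Finset.mem_powerset, not_not, Finset.mem_singleton]
      constructor
      · exact fun h => h.2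
      · rintro rfl
        exact ⟨Finset.Subset.refl _, rfl⟩
    rw [this, Finset.sum_singleton, hcard, pow_succ, ht.neg_one_pow]
    ring
  have h3 : ∏ i ∈ P N t, x i σ = if (∀ i ∈ P N t, low (σ i)) then 1 else 0 := by
    simp only [x]
    split_ifs with h
    · exact Finset.prod_eq_one (fun i hi => by simp [h i hi])
    · push Not at h
      obtain ⟨i, hi, hi2⟩ := h
      exact Finset.prod_eq_zero hi (by simp [hi2])
  have h4 : ∏ i ∈ P N t, (1 - x i σ) = if (∀ i ∈ P N t, ¬ low (σ i)) then 1 else 0 := by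
    simp only [x]
    split_ifs with h
    · exact Finset.prod_eq_one (fun i hi => by simp [h i hi])
    · push Not at h
      obtain ⟨i, hi, hi2⟩ := h
      exact Finset.prod_eq_zero hi (by simp [hi2])
  have h5 : (charFn (fam N t : Set (S (2 * N)))).ofLp σ
      = ∏ i ∈ P N t, x i σ + ∏ i ∈ P N t, (1 - x i σ) := by
    rw [h3, h4]
    have hne : (P N t).Nonempty := by
      rw [← Finset.card_pos, hcard]; omega
    obtain ⟨i₀, hi₀⟩ := hne
    simp only [charFn]
    by_cases ha : ∀ i ∈ P N t, low (σ i)
    · have hb : ¬ ∀ i ∈ P N t, ¬ low (σ i) := fun hb => hb i₀ hi₀ (ha i₀ hi₀)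
      rw [Set.indicator_of_mem, if_pos ha, if_neg hb, add_zero]
      simp only [fam, Finset.coe_filter, Finset.mem_univ, true_and, Set.mem_ofPred_eq]
      exact Or.inl ha
    · by_cases hb : ∀ i ∈ P N t, ¬ low (σ i)
      · rw [Set.indicator_of_mem, if_neg ha, if_pos hb, zero_add]
        simp only [fam, Finset.coe_filter, Finset.mem_univ, true_and, Set.mem_ofPred_eq]
        exact Or.inr hb
      · rw [Set.indicator_of_notMem, if_neg ha, if_neg hb, zero_add]
        simp only [fam, Finset.coe_filter, Finset.mem_univ, true_and, Set.mem_ofPred_eq]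
        rintro (h | h)
        · exact ha h
        · exact hb h
  rw [h5, h1, h2]
  ring

lemma charFn_fam_mem {N t : ℕ} (ht : Even t) (hN : t + 1 ≤ N) :
    charFn (fam N t : Set (S (2 * N))) ∈ U (2 * N) t := by
  classical
  have hcard := card_P (t := t) hN
  have hsum : charFn (fam N t : Set (S (2 * N)))
      = ∑ T ∈ (P N t).powerset.filter (fun T => T ≠ P N t),
          WithLp.toLp 2 (fun σ => (-1 : ℝ) ^ T.card * ∏ i ∈ T, x i σ) := by
    ext σ
    rw [charFn_fam_eq ht hN, WithLp.ofLp_sum, Finset.sum_apply]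
  rw [hsum]
  refine Submodule.sum_mem _ (fun T hT => ?_)
  rw [Finset.mem_filter, Finset.mem_powerset] at hT
  have hTc : T.card ≤ t := by
    have : T.card < (P N t).card := Finset.card_lt_card (lt_of_le_of_ne hT.1 hT.2)
    omega
  refine mem_U_of_depends_finset (by omega) T hTc _ (fun σ τ h => ?_)
  show (-1 : ℝ) ^ T.card * ∏ i ∈ T, x i σ = (-1 : ℝ) ^ T.card * ∏ i ∈ T, x i τ
  congr 1
  refine Finset.prod_congr rfl (fun i hi => ?_)
  simp only [x, h i hi]

/-! ### Counting -/

lemma card_low {N : ℕ} (σ : S (2 * N)) :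
    (Finset.univ.filter (fun j => low (σ j))).card = N := by
  classical
  have h1 : (Finset.univ.filter (fun b : Fin (2 * N) => low b)).card = N := by
    have h2 : (Finset.univ.filter (fun b : Fin (2 * N) => low b))
        = Finset.univ.filter (fun b : Fin (2 * N) => b.val < N) := by
      ext b
      rw [Finset.mem_filter, Finset.mem_filter]
      exact Iff.rfl
    rw [h2, Fin.card_filter_val_lt]
    omega
  refine Eq.trans ?_ h1
  refine Finset.card_bij (fun j _ => σ j) ?_ ?_ ?_
  · intro j hj
    simpa using hj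
  · intro j _ j' _ h
    exact σ.injective h
  · intro b hb
    exact ⟨σ.symm b, by simpa using hb, by simp⟩

lemma card_not_low {N : ℕ} (σ : S (2 * N)) :
    (Finset.univ.filter (fun j => ¬ low (σ j))).card = N := by
  classical
  have h := Finset.card_filter_add_card_filter_not (s := (Finset.univ : Finset (Fin (2 * N))))
    (fun j => low (σ j))
  rw [card_low, Finset.card_univ, Fintype.card_fin] at h
  omega

/-- number of positions whose image lies in the half not containing `σ i` -/
lemma card_opp {N : ℕ} (σ : S (2 * N)) (i : Fin (2 * N)) :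
    (Finset.univ.filter (fun j => ¬ (low (σ j) ↔ low (σ i)))).card = N := by
  classical
  by_cases h : low (σ i)
  · simp only [h, iff_true]
    exact card_not_low σ
  · simp only [h, iff_false, not_not]
    exact card_low σ

/-- `i` is the strict minority among the first `t+1` positions of `σ` -/
def minority (N t : ℕ) (i : Fin (2 * N)) (σ : S (2 * N)) : Prop :=
  ∀ k ∈ P N t, k ≠ i → ¬ (low (σ k) ↔ low (σ i))

lemma key_count {N t : ℕ} (ht : 1 ≤ t) (hN : t + 1 ≤ N) (i : Fin (2 * N)) (hi : i ∈ P N t)
    (A B : Finset (S (2 * N)))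
    (hB : ∀ τ ∈ B, minority N t i τ)
    (hA : ∀ σ ∈ A, (∀ k ∈ P N t, (low (σ k) ↔ low (σ i))) ∧
      ∃ R : Finset (Fin (2 * N)), R.card ≤ t ∧ i ∉ R ∧ ∀ τ : S (2 * N), (∀ k ∈ R, τ k = σ k) →
        minority N t i τ → τ ∈ B) : A.card ≤ B.card := by
  classical
  have hcard := card_P (t := t) hN
  have main : A.card * (N - t) ≤ B.card * (N - t) := by
    refine Finset.card_mul_le_card_mul
      (fun σ τ => ∃ j, j ∉ P N t ∧ τ = σ * Equiv.swap i j) ?_ ?_
    · intro σ hσ
      obtain ⟨h1, R, hR, hiR, h2⟩ := hA σ hσ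
      have hJ : N - t ≤ ((Finset.univ.filter (fun j => ¬ (low (σ j) ↔ low (σ i)))) \ R).card := by
        have := Finset.le_card_sdiff R (Finset.univ.filter (fun j => ¬ (low (σ j) ↔ low (σ i))))
        rw [card_opp] at this
        omega
      refine hJ.trans ?_
      refine Finset.card_le_card_of_injOn (fun j => σ * Equiv.swap i j) ?_ ?_
      · intro j hj
        have hj' : ¬ (low (σ j) ↔ low (σ i)) ∧ j ∉ R := by simpa using hj
        obtain ⟨hj1, hj2⟩ := hj'
        have hjP : j ∉ P N t := fun h => hj1 (h1 j h)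
        have hother : ∀ k, k ≠ i → k ≠ j → (σ * Equiv.swap i j) k = σ k := by
          intro k hk1 hk2
          rw [Equiv.Perm.mul_apply, Equiv.swap_apply_of_ne_of_ne hk1 hk2]
        have hati : (σ * Equiv.swap i j) i = σ j := by
          rw [Equiv.Perm.mul_apply, Equiv.swap_apply_left]
        have hmem : (σ * Equiv.swap i j) ∈ B := by
          refine h2 _ ?_ ?_
          · intro k hk
            refine hother k ?_ ?_
            · rintro rfl; exact hiR hk
            · rintro rfl; exact hj2 hk
          · intro k hk hki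
            have hkj : k ≠ j := by rintro rfl; exact hjP hk
            rw [hother k hki hkj, hati]
            have := h1 k hk
            tauto
        simp only [Finset.coe_filter, Finset.bipartiteAbove, Set.mem_ofPred_eq]
        exact ⟨hmem, j, hjP, rfl⟩
      · intro j _ j' _ h
        have h3 : (σ * Equiv.swap i j) i = (σ * Equiv.swap i j') i := by
          simp only at h
          rw [h]
        rw [Equiv.Perm.mul_apply, Equiv.Perm.mul_apply, Equiv.swap_apply_left,
          Equiv.swap_apply_left] at h3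
        exact σ.injective h3
    · intro τ hτ
      have hmin := hB τ hτ
      have hJ : ((Finset.univ.filter (fun j => ¬ (low (τ j) ↔ low (τ i)))) \ P N t).card ≤ N - t := by
        have h1 := Finset.card_sdiff_add_card_inter
          (Finset.univ.filter (fun j => ¬ (low (τ j) ↔ low (τ i)))) (P N t)
        rw [card_opp] at h1
        have h2 : t ≤ ((Finset.univ.filter (fun j => ¬ (low (τ j) ↔ low (τ i)))) ∩ P N t).card := by
          have h3 : (P N t).erase i ⊆
              (Finset.univ.filter (fun j => ¬ (low (τ j) ↔ low (τ i)))) ∩ P N t := by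
            intro k hk
            rw [Finset.mem_erase] at hk
            rw [Finset.mem_inter, Finset.mem_filter]
            exact ⟨⟨Finset.mem_univ _, hmin k hk.2 hk.1⟩, hk.2⟩
          have h4 := Finset.card_le_card h3
          rw [Finset.card_erase_of_mem hi, hcard] at h4
          omega
        omega
      refine le_trans ?_ hJ
      refine Finset.card_le_card_of_surjOn (fun j => τ * Equiv.swap i j) ?_
      intro σ hσ
      simp only [Finset.coe_filter, Finset.bipartiteBelow, Set.mem_ofPred_eq] at hσ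
      obtain ⟨hσA, j, hjP, rfl⟩ := hσ
      refine ⟨j, ?_, ?_⟩
      · simp only [Finset.coe_sdiff, Finset.coe_filter, Finset.mem_univ, true_and, Set.mem_sdiff,
          Set.mem_ofPred_eq, Finset.mem_coe]
        refine ⟨?_, hjP⟩
        obtain ⟨k, hk, hki⟩ : ∃ k ∈ P N t, k ≠ i := by
          apply Finset.exists_mem_ne
          omega
        have hkj : k ≠ j := by rintro rfl; exact hjP hk
        have e1 : (σ * Equiv.swap i j) k = σ k := by
          rw [Equiv.Perm.mul_apply, Equiv.swap_apply_of_ne_of_ne hki hkj]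
        have e2 : (σ * Equiv.swap i j) j = σ i := by
          rw [Equiv.Perm.mul_apply, Equiv.swap_apply_right]
        have h5 := hmin k hk hki
        rw [e1] at h5
        have h6 := (hA σ hσA).1 k hk
        rw [e2]
        tauto
      · simp only [mul_assoc, Equiv.swap_mul_self, mul_one]
  have hpos : 0 < N - t := by omega
  exact Nat.le_of_mul_le_mul_right main hpos

lemma fam_far {N t : ℕ} (ht : 2 ≤ t) (hN : t + 1 ≤ N) (C : Set (S (2 * N)))
    (hC : IsUnionOfCosets (2 * N) t C) :
    (fam N t : Set (S (2 * N))).ncard ≤ (symmDiff (fam N t : Set (S (2 * N))) C).ncard := by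
  classical
  have hcard := card_P (t := t) hN
  obtain ⟨F, hF⟩ := hC
  obtain ⟨C', hC'⟩ : ∃ C' : Finset (S (2 * N)), (C' : Set (S (2 * N))) = C :=
    ⟨C.toFinite.toFinset, Set.Finite.coe_toFinset _⟩
  -- the certificate of a member of `C`
  have hcert : ∀ σ ∈ fam N t ∩ C', ∃ i ∈ P N t, ∃ R : Finset (Fin (2 * N)), R.card ≤ t ∧ i ∉ R ∧
      ∀ τ : S (2 * N), (∀ k ∈ R, τ k = σ k) → τ ∈ C' := by
    intro σ hσ
    rw [Finset.mem_inter] at hσ
    have hσC : σ ∈ C := by rw [← hC']; exact hσ.2
    rw [hF] at hσC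
    simp only [Set.mem_iUnion] at hσC
    obtain ⟨p, hpF, hpσ⟩ := hσC
    have hRc : (Finset.univ.map p.1).card ≤ t := by simp
    obtain ⟨i, hiP, hiR⟩ : ∃ i ∈ P N t, i ∉ Finset.univ.map p.1 := by
      apply Finset.exists_mem_notMem_of_card_lt_card
      omega
    refine ⟨i, hiP, Finset.univ.map p.1, hRc, hiR, ?_⟩
    intro τ hτ
    have : τ ∈ C := by
      rw [hF]
      simp only [Set.mem_iUnion]
      refine ⟨p, hpF, ?_⟩
      intro k
      rw [hτ (p.1 k) (by simp)]
      exact hpσ k
    rw [← hC'] at this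
    exact this
  have : Nonempty (Fin (2 * N)) := ⟨⟨0, by omega⟩⟩
  choose! ch hchP Rf hR1 hR2 hR3 using hcert
  have hle : (fam N t ∩ C').card ≤ (C' \ fam N t).card := by
    have h1 : (fam N t ∩ C').card = ∑ i ∈ P N t, ((fam N t ∩ C').filter (fun σ => ch σ = i)).card :=
      Finset.card_eq_sum_card_fiberwise (fun σ hσ => hchP σ hσ)
    have h2 : ∀ i ∈ P N t, ((fam N t ∩ C').filter (fun σ => ch σ = i)).card
        ≤ (C'.filter (fun τ => minority N t i τ)).card := by
      intro i hi
      refine key_count (by omega) hN i hi _ _ ?_ ?_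
      · intro τ hτ
        exact (Finset.mem_filter.mp hτ).2
      · intro σ hσ
        rw [Finset.mem_filter] at hσ
        obtain ⟨hσ1, hσ2⟩ := hσ
        refine ⟨?_, Rf σ, hR1 σ hσ1, hσ2 ▸ hR2 σ hσ1, ?_⟩
        · have hfam := (Finset.mem_inter.mp hσ1).1
          simp only [fam, Finset.mem_filter, Finset.mem_univ, true_and] at hfam
          intro k hk
          rcases hfam with h | h
          · simp [h k hk, h i hi]
          · simp [h k hk, h i hi]
        · intro τ hτ hmin
          rw [Finset.mem_filter]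
          exact ⟨hR3 σ hσ1 τ hτ, hmin⟩
    have h3 : ∑ i ∈ P N t, (C'.filter (fun τ => minority N t i τ)).card
        = ((P N t).biUnion (fun i => C'.filter (fun τ => minority N t i τ))).card := by
      rw [Finset.card_biUnion]
      intro i hi i' hi' hne
      rw [Function.onFun, Finset.disjoint_left]
      intro τ hτ hτ'
      rw [Finset.mem_filter] at hτ hτ'
      obtain ⟨k, hk, hk1, hk2⟩ : ∃ k ∈ P N t, k ≠ i ∧ k ≠ i' := by
        have : ((P N t).erase i).erase i' |>.Nonempty := by
          rw [← Finset.card_pos, Finset.card_erase_of_mem, Finset.card_erase_of_mem hi, hcard]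
          · omega
          · rw [Finset.mem_erase]
            exact ⟨hne.symm, hi'⟩
        obtain ⟨k, hk⟩ := this
        rw [Finset.mem_erase, Finset.mem_erase] at hk
        exact ⟨k, hk.2.2, hk.2.1, hk.1⟩
      have e1 := hτ.2 k hk hk1
      have e2 := hτ'.2 k hk hk2
      have e3 := hτ.2 i' hi' hne.symm
      tauto
    have h4 : (P N t).biUnion (fun i => C'.filter (fun τ => minority N t i τ)) ⊆ C' \ fam N t := by
      intro τ hτ
      rw [Finset.mem_biUnion] at hτ
      obtain ⟨i, hi, hτ⟩ := hτ
      rw [Finset.mem_filter] at hτ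
      rw [Finset.mem_sdiff]
      refine ⟨hτ.1, fun hfam => ?_⟩
      simp only [fam, Finset.mem_filter, Finset.mem_univ, true_and] at hfam
      obtain ⟨k, hk, hki⟩ : ∃ k ∈ P N t, k ≠ i := by
        apply Finset.exists_mem_ne
        omega
      have e1 := hτ.2 k hk hki
      rcases hfam with h | h
      · exact e1 (by simp [h k hk, h i hi])
      · exact e1 (by simp [h k hk, h i hi])
    calc (fam N t ∩ C').card
        = ∑ i ∈ P N t, ((fam N t ∩ C').filter (fun σ => ch σ = i)).card := h1
      _ ≤ ∑ i ∈ P N t, (C'.filter (fun τ => minority N t i τ)).card := Finset.sum_le_sum h2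
      _ = _ := h3
      _ ≤ _ := Finset.card_le_card h4
  rw [← hC']
  have h5 : (symmDiff (fam N t : Set (S (2 * N))) (C' : Set (S (2 * N)))) =
      ((symmDiff (fam N t) C' : Finset (S (2 * N))) : Set (S (2 * N))) := by
    rw [Finset.coe_symmDiff]
  rw [h5, Set.ncard_coe_finset, Set.ncard_coe_finset]
  have h6 : symmDiff (fam N t) C' = (fam N t \ C') ∪ (C' \ fam N t) := rfl
  rw [h6, Finset.card_union_of_disjoint]
  · have h7 := Finset.card_sdiff_add_card_inter (fam N t) C'
    omega
  · rw [Finset.disjoint_left]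
    intro σ h1 h2
    exact (Finset.mem_sdiff.mp h2).2 (Finset.mem_sdiff.mp h1).1

lemma fam_pos {N t : ℕ} (hN : t + 1 ≤ N) : 0 < (fam N t : Set (S (2 * N))).ncard := by
  rw [Set.ncard_coe_finset, Finset.card_pos]
  refine ⟨1, ?_⟩
  simp only [fam, Finset.mem_filter, Finset.mem_univ, true_and]
  left
  intro i hi
  simp only [P, Finset.mem_filter, Finset.mem_univ, true_and] at hi
  show i.val < N
  omega

/-- For every even `t ≥ 2` and every constant `C₀` there are `n ≥ t`, `ε > 0` and a family
`A ⊆ S n` whose characteristic function `f` satisfies `E[(f - f_t)^2] ≤ ε E[f]`, although every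
union `C` of `t`-cosets has `|A △ C| > C₀ (ε + 1/n) |A|`. -/
theorem result :
    ∀ t : ℕ, 2 ≤ t → Even t → ∀ C₀ : ℝ,
      ∃ n : ℕ, t ≤ n ∧ ∃ ε : ℝ, 0 < ε ∧ ∃ A : Set (S n),
        expect (fun σ => (charFn A σ - (U n t).starProjection (charFn A) σ) ^ 2)
            ≤ ε * expect (fun σ => charFn A σ) ∧
        ∀ C : Set (S n), IsUnionOfCosets n t C →
          C₀ * (ε + 1 / (n : ℝ)) * (A.ncard : ℝ) < ((symmDiff A C).ncard : ℝ) := by
  intro t ht hte C₀
  obtain ⟨M, hM⟩ := exists_nat_gt |C₀|
  set N : ℕ := t + 1 + M with hNdef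
  have hN : t + 1 ≤ N := by omega
  have hNM : M + 1 ≤ N := by omega
  refine ⟨2 * N, by omega, 1 / (2 * (|C₀| + 1)), by positivity, (fam N t : Set (S (2 * N))), ?_, ?_⟩
  · rw [Submodule.starProjection_eq_self_iff.mpr (charFn_fam_mem hte hN)]
    have h0 : expect (fun σ : S (2 * N) => ((charFn (fam N t : Set (S (2 * N)))) σ
        - (charFn (fam N t : Set (S (2 * N)))) σ) ^ 2) = 0 := by
      simp [expect]
    rw [h0]
    apply mul_nonneg (by positivity)
    unfold expect
    apply mul_nonneg (by positivity)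
    refine Finset.sum_nonneg (fun σ _ => ?_)
    simp only [charFn]
    exact Set.indicator_nonneg (fun _ _ => zero_le_one) _
  · intro C hC
    have h1 := fam_far ht hN C hC
    have h2 := fam_pos (t := t) hN
    have h1' : ((fam N t : Set (S (2 * N))).ncard : ℝ) ≤
        ((symmDiff (fam N t : Set (S (2 * N))) C).ncard : ℝ) := by exact_mod_cast h1
    have h2' : (0 : ℝ) < ((fam N t : Set (S (2 * N))).ncard : ℝ) := by exact_mod_cast h2
    refine lt_of_lt_of_le ?_ h1'
    have h3 : C₀ * (1 / (2 * (|C₀| + 1)) + 1 / ((2 * N : ℕ) : ℝ)) < 1 := by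
      have hN' : |C₀| + 1 ≤ (N : ℝ) := by
        have : ((M + 1 : ℕ) : ℝ) ≤ (N : ℝ) := by exact_mod_cast hNM
        push_cast at this
        linarith
      have hpos : (0 : ℝ) < |C₀| + 1 := by positivity
      have h4 : 1 / ((2 * N : ℕ) : ℝ) ≤ 1 / (2 * (|C₀| + 1)) := by
        push_cast
        apply one_div_le_one_div_of_le (by positivity)
        linarith
      have h5 : C₀ * (1 / (2 * (|C₀| + 1)) + 1 / ((2 * N : ℕ) : ℝ))
          ≤ |C₀| * (1 / (2 * (|C₀| + 1)) + 1 / (2 * (|C₀| + 1))) := by
        apply mul_le_mul (le_abs_self _) (by linarith) (by positivity) (abs_nonneg _)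
      refine lt_of_le_of_lt h5 ?_
      have h6 : |C₀| * (1 / (2 * (|C₀| + 1)) + 1 / (2 * (|C₀| + 1))) = |C₀| / (|C₀| + 1) := by
        field_simp
        ring
      rw [h6, div_lt_one hpos]
      linarith
    calc C₀ * (1 / (2 * (|C₀| + 1)) + 1 / ((2 * N : ℕ) : ℝ)) * ((fam N t : Set (S (2 * N))).ncard : ℝ)
        < 1 * ((fam N t : Set (S (2 * N))).ncard : ℝ) := by
          exact mul_lt_mul_of_pos_right h3 h2'
      _ = _ := one_mul _

end Pool.Agent.Results.MP_e70d00_co.StabilityFails
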